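import Pool.Agent.H37.IS.Stm2

/-! Crew IS, parts HCM and FOR. -/

set_option autoImplicit false

namespace H33.IS

open H37.IS N36365310

theorem HCM_proved : S_HCM := by
  intro f N h1 h2
  by_cases h : f ((N - 1) / 2) ≤ f ((N - 1) / 2 + 1)
  · refine ⟨(N - 1) / 2 + 1, ?_, ?_⟩
    · intro i hi
      rcases Nat.lt_or_ge i ((N - 1) / 2) with hi' | hi'
      · exact h1 i (by omega)
      · have : i = (N - 1) / 2 := by omega
        rw [this]; exact h
    · intro i hi
      exact h2 i (by omega)
  · refine ⟨(N - 1) / 2, ?_, ?_⟩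
    · intro i hi
      exact h1 i (by omega)
    · intro i hi
      rcases Nat.eq_or_lt_of_le hi with hi' | hi'
      · rw [← hi']; omega
      · exact h2 i (by omega)

theorem par_unique {V : Type} {G : SimpleGraph V} (hG : G.IsTree) (x : V) {v v' w : V}
    (h1 : G.Adj v w) (h2 : G.Adj v' w) (d1 : G.dist x w = G.dist x v + 1)
    (d2 : G.dist x w = G.dist x v' + 1) : v = v' := by
  classical
  have key : ∀ z : V, G.Adj z w → G.dist x w = G.dist x z + 1 →
      ∃ q : G.Walk x w, q.IsPath ∧ q.penultimate = z := by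
    intro z hz hd
    obtain ⟨p, hp, hp'⟩ := (hG.connected x z).exists_path_of_dist
    have hw : w ∉ p.support := by
      intro hw
      have e1 := SimpleGraph.dist_le (p.takeUntil w hw)
      have e2 := p.length_takeUntil_le_length hw
      omega
    exact ⟨p.concat hz, hp.concat hw hz, SimpleGraph.Walk.penultimate_concat _ _⟩
  obtain ⟨q, hq, e⟩ := key v h1 d1
  obtain ⟨q', hq', e'⟩ := key v' h2 d2
  have := Subtype.mk.inj (hG.isAcyclic.subsingleton_path x w |>.elim ⟨q, hq⟩ ⟨q', hq'⟩)
  rw [← e, ← e', this]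

theorem FOR_proved : S_FOR := by
  intro V _ G _ hG D S W h
  classical
  obtain ⟨x⟩ := hG.connected.nonempty
  have hc : ∀ v ∈ S, D ≤ (W.filter (fun w => G.Adj v w ∧ G.dist x w = G.dist x v + 1)).card := by
    intro v hv
    have h1 := h v hv
    have h2 : (W.filter (fun w => G.Adj v w ∧ G.dist x v = G.dist x w + 1)).card ≤ 1 := by
      rw [Finset.card_le_one]
      intro a ha b hb
      rw [Finset.mem_filter] at ha hb
      exact par_unique hG x ha.2.1.symm hb.2.1.symm ha.2.2 hb.2.2
    have h3 : W.filter (fun w => G.Adj v w) ⊆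
        W.filter (fun w => G.Adj v w ∧ G.dist x w = G.dist x v + 1) ∪
        W.filter (fun w => G.Adj v w ∧ G.dist x v = G.dist x w + 1) := by
      intro w hw
      rw [Finset.mem_filter] at hw
      rw [Finset.mem_union, Finset.mem_filter, Finset.mem_filter]
      rcases hG.dist_eq_dist_add_one_of_adj x hw.2 with e | e
      · exact Or.inr ⟨hw.1, hw.2, e⟩
      · exact Or.inl ⟨hw.1, hw.2, e⟩
    have h4 := (Finset.card_le_card h3).trans (Finset.card_union_le _ _)
    omega
  have hd : ∀ v ∈ S, ∀ v' ∈ S, v ≠ v' →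
      Disjoint (W.filter (fun w => G.Adj v w ∧ G.dist x w = G.dist x v + 1))
        (W.filter (fun w => G.Adj v' w ∧ G.dist x w = G.dist x v' + 1)) := by
    intro v _ v' _ hne
    rw [Finset.disjoint_left]
    intro w hw hw'
    rw [Finset.mem_filter] at hw hw'
    exact hne (par_unique hG x hw.2.1 hw'.2.1 hw.2.2 hw'.2.2)
  have h5 : (S.biUnion fun v => W.filter (fun w => G.Adj v w ∧ G.dist x w = G.dist x v + 1)).card ≤
      (W.filter (fun w => ∃ u ∈ S, G.Adj u w)).card := by
    apply Finset.card_le_card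
    intro w hw
    rw [Finset.mem_biUnion] at hw
    obtain ⟨v, hv, hw⟩ := hw
    rw [Finset.mem_filter] at hw ⊢
    exact ⟨hw.1, v, hv, hw.2.1⟩
  rw [Finset.card_biUnion hd] at h5
  have h6 := Finset.card_nsmul_le_sum S _ D hc
  rw [smul_eq_mul, mul_comm] at h6
  exact h6.trans h5

end H33.IS
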